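import Mathlib

/-!
# A badly approximable number with square denominators

The words `w_0 = (2, 2)` and `w_{j+1}` = folding of `w_j` give convergents `p_j / q_j` with
`q_{j+1} = 4 q_j ^ 2 = (2 q_j) ^ 2`, and all partial quotients are at most `3`.
-/

set_option autoImplicit false

namespace Pool.Agent.TH878.FoldCF

open Matrix

/-- the matrix of a word -/
def M : List ℕ → Matrix (Fin 2) (Fin 2) ℤ
  | [] => 1
  | c :: t => !![(c : ℤ), 1; 1, 0] * M t

lemma M_append (u v : List ℕ) : M (u ++ v) = M u * M v := by
  induction u with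
  | nil => simp [M]
  | cons c t ih => simp only [List.cons_append, M, ih, Matrix.mul_assoc]

lemma M_singleton (c : ℕ) : M [c] = !![(c : ℤ), 1; 1, 0] := by simp [M]

lemma M_reverse (u : List ℕ) : M u.reverse = (M u)ᵀ := by
  induction u with
  | nil => simp [M]
  | cons c t ih =>
    rw [List.reverse_cons, M_append, ih, M_singleton]
    simp only [M]
    rw [Matrix.transpose_mul]
    congr 1
    ext i j
    fin_cases i <;> fin_cases j <;> simp

lemma det_M (u : List ℕ) : (M u).det = (-1) ^ u.length := by
  induction u with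
  | nil => simp [M]
  | cons c t ih =>
    simp only [M, Matrix.det_mul, ih, List.length_cons, Matrix.det_fin_two_of]
    ring

/-- denominator and numerator of `[0; w]` -/
def den (w : List ℕ) : ℤ := M w 0 0
def num (w : List ℕ) : ℤ := M w 1 0

lemma den_cons (c : ℕ) (t : List ℕ) : den (c :: t) = c * den t + num t := by
  simp [den, num, M, Matrix.mul_apply, Fin.sum_univ_two]

lemma num_cons (c : ℕ) (t : List ℕ) : num (c :: t) = den t := by
  simp [den, num, M, Matrix.mul_apply, Fin.sum_univ_two]

lemma den_nil : den [] = 1 := by simp [den, M]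
lemma num_nil : num [] = 0 := by simp [num, M]

lemma pos (w : List ℕ) (hw : ∀ c ∈ w, 1 ≤ c) : 1 ≤ den w ∧ 0 ≤ num w ∧ num w ≤ den w := by
  induction w with
  | nil => simp [den_nil, num_nil]
  | cons c t ih =>
    obtain ⟨h1, h2, h3⟩ := ih (fun a ha => hw a (List.mem_cons_of_mem _ ha))
    have hc : (1 : ℤ) ≤ c := by exact_mod_cast hw c (List.mem_cons_self ..)
    rw [den_cons, num_cons]
    refine ⟨by nlinarith, by linarith, by nlinarith⟩

/-- best approximation, by induction on the rest `v` of the word -/
lemma best (v : List ℕ) (hv : ∀ c ∈ v, 1 ≤ c ∧ c ≤ 3) : ∀ (Q Q' s t : ℤ), 0 < Q → 0 ≤ Q' →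
    Q' ≤ Q → Q ≤ s * Q + t * Q' → s * Q + t * Q' < Q * den v + Q' * num v →
    Q * den v + Q' * num v ≤ 5 * (s * Q + t * Q') * |s * num v - t * den v| := by
  induction v with
  | nil =>
    intro Q Q' s t hQ hQ' hQQ h1 h2
    rw [den_nil, num_nil] at h2
    exfalso
    linarith
  | cons c v ih =>
    intro Q Q' s t hQ hQ' hQQ h1 h2
    have hc := hv c (List.mem_cons_self ..)
    have hc1 : (1 : ℤ) ≤ c := by exact_mod_cast hc.1
    have hc3 : (c : ℤ) ≤ 3 := by exact_mod_cast hc.2
    have hv' : ∀ a ∈ v, 1 ≤ a ∧ a ≤ 3 := fun a ha => hv a (List.mem_cons_of_mem _ ha)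
    obtain ⟨d1, d2, d3⟩ := pos v (fun a ha => (hv' a ha).1)
    rw [den_cons, num_cons] at *
    set D := den v with hD
    set P := num v with hP
    set C : ℤ := (c : ℤ) with hC
    by_cases hb : s * Q + t * Q' < C * Q + Q'
    · -- the remainder is at least `D`
      have hR : D ≤ |s * D - t * (C * D + P)| := by
        rcases lt_trichotomy t 0 with ht | ht | ht
        · -- then `s ≥ 1`
          have hs : 1 ≤ s := by
            by_contra hs
            push Not at hs
            have hs' : s ≤ 0 := by linarith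
            have e1 : s * Q ≤ 0 := mul_nonpos_of_nonpos_of_nonneg hs' hQ.le
            have e2 : t * Q' ≤ 0 := mul_nonpos_of_nonpos_of_nonneg ht.le hQ'
            linarith
          have e1 : D ≤ s * D := by nlinarith
          have e2 : 0 ≤ -t * (C * D + P) := mul_nonneg (by linarith) (by nlinarith)
          refine le_trans ?_ (le_abs_self _)
          linarith
        · subst ht
          have hs : 1 ≤ s := by
            by_contra hs
            push Not at hs
            have hs' : s ≤ 0 := by linarith
            have e1 : s * Q ≤ 0 := mul_nonpos_of_nonpos_of_nonneg hs' hQ.le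
            linarith
          refine le_trans ?_ (le_abs_self _)
          nlinarith
        · have ht1 : 1 ≤ t := ht
          have hs : s ≤ C - 1 := by
            by_contra hs
            push Not at hs
            have hs' : C ≤ s := by linarith
            have e1 : C * Q ≤ s * Q := mul_le_mul_of_nonneg_right hs' hQ.le
            have e2 : 1 * Q' ≤ t * Q' := mul_le_mul_of_nonneg_right ht1 hQ'
            linarith
          have e1 : s * D ≤ (C - 1) * D := mul_le_mul_of_nonneg_right hs (by linarith)
          have e2 : 1 * (C * D + P) ≤ t * (C * D + P) :=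
            mul_le_mul_of_nonneg_right ht1 (by nlinarith)
          rw [abs_sub_comm]
          refine le_trans ?_ (le_abs_self _)
          linarith
      have hb0 : Q ≤ s * Q + t * Q' := h1
      have e1 : (5 * Q) * D ≤ 5 * (s * Q + t * Q') * |s * D - t * (C * D + P)| :=
        mul_le_mul (by linarith) hR (by linarith) (by linarith)
      refine le_trans ?_ e1
      have e2 : Q * (C * D + P) ≤ Q * (4 * D) := mul_le_mul_of_nonneg_left (by nlinarith) hQ.le
      have e3 : Q' * D ≤ Q * D := mul_le_mul_of_nonneg_right hQQ (by linarith)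
      nlinarith
    · push Not at hb
      have h := ih hv' (C * Q + Q') Q t (s - C * t) (by nlinarith) hQ.le (by nlinarith)
        (by nlinarith) (by nlinarith)
      have e1 : t * (C * Q + Q') + (s - C * t) * Q = s * Q + t * Q' := by ring
      have e2 : (C * Q + Q') * D + Q * P = Q * (C * D + P) + Q' * D := by ring
      have e3 : |t * P - (s - C * t) * D| = |s * D - t * (C * D + P)| := by
        rw [← abs_neg]; congr 1; ring
      rw [e1, e2, e3] at h
      exact h

lemma best' (w : List ℕ) (hw : ∀ c ∈ w, 1 ≤ c ∧ c ≤ 3) (a b : ℤ) (hb : 1 ≤ b) (hlt : b < den w) :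
    den w ≤ 5 * b * |b * num w - a * den w| := by
  have h := best w hw 1 0 b a one_pos le_rfl zero_le_one (by linarith) (by linarith)
  simpa using h

/-! ### the folded words -/

def t : ℕ → List ℕ
  | 0 => []
  | j + 1 => t j ++ [2, 3, 1, 1] ++ (t j).reverse

def w (j : ℕ) : List ℕ := 2 :: (t j ++ [2])

def q (j : ℕ) : ℤ := den (w j)
def p (j : ℕ) : ℤ := num (w j)

lemma t_mem : ∀ j, ∀ c ∈ t j, 1 ≤ c ∧ c ≤ 3
  | 0 => by simp [t]
  | j + 1 => by
    intro c hc
    simp only [t, List.mem_append, List.mem_reverse] at hc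
    rcases hc with (hc | hc) | hc
    · exact t_mem j c hc
    · simp at hc
      omega
    · exact t_mem j c hc

lemma w_mem (j : ℕ) : ∀ c ∈ w j, 1 ≤ c ∧ c ≤ 3 := by
  intro c hc
  simp only [w, List.mem_cons, List.mem_append, List.mem_singleton, List.not_mem_nil,
    or_false] at hc
  rcases hc with hc | hc | hc
  · omega
  · exact t_mem j c hc
  · omega

lemma t_len : ∀ j, Even (t j).length
  | 0 => by simp [t]
  | j + 1 => by
    simp only [t, List.length_append, List.length_reverse, List.length_cons, List.length_nil]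
    have := t_len j
    obtain ⟨k, hk⟩ := this
    exact ⟨(t j).length + 2, by omega⟩

lemma det_u (j : ℕ) : (M (2 :: t j)).det = -1 := by
  rw [det_M, List.length_cons]
  exact Odd.neg_one_pow ((t_len j).add_one)

lemma w_eq (j : ℕ) : w j = (2 :: t j) ++ [2] := rfl

lemma w_succ (j : ℕ) : w (j + 1) = (2 :: t j) ++ [2, 3, 1, 1] ++ (2 :: t j).reverse := by
  simp [w, t, List.append_assoc]

lemma K_eq : M [2, 3, 1, 1] = !![16, 9; 7, 4] := by
  simp [M]

lemma q_eq (j : ℕ) : q j = 2 * M (2 :: t j) 0 0 + M (2 :: t j) 0 1 := by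
  unfold q den
  rw [w_eq, M_append, M_singleton]
  simp [Matrix.mul_apply, Fin.sum_univ_two]
  ring

lemma p_eq (j : ℕ) : p j = 2 * M (2 :: t j) 1 0 + M (2 :: t j) 1 1 := by
  unfold p num
  rw [w_eq, M_append, M_singleton]
  simp [Matrix.mul_apply, Fin.sum_univ_two]
  ring

lemma q_succ (j : ℕ) : q (j + 1) = 4 * q j ^ 2 := by
  rw [q_eq j]
  unfold q den
  rw [w_succ, M_append, M_append, M_reverse, K_eq]
  generalize M (2 :: t j) = A
  simp [Matrix.mul_apply, Fin.sum_univ_two]
  ring

lemma p_succ (j : ℕ) : p (j + 1) = 4 * p j * q j + 1 := by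
  have hd := det_u j
  rw [Matrix.det_fin_two] at hd
  rw [q_eq j, p_eq j]
  unfold p num
  rw [w_succ, M_append, M_append, M_reverse, K_eq]
  generalize M (2 :: t j) = A at *
  simp [Matrix.mul_apply, Fin.sum_univ_two]
  linarith

lemma q_zero : q 0 = 5 := by
  simp [q, w, t, den, M]

lemma q_pos : ∀ j, 5 ≤ q j
  | 0 => q_zero.ge
  | j + 1 => by
    have := q_pos j
    rw [q_succ]
    nlinarith

lemma q_lt (j : ℕ) : (j : ℤ) < q j := by
  induction j with
  | zero => rw [q_zero]; norm_num
  | succ j ih =>
    rw [q_succ]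
    have := q_pos j
    push_cast
    nlinarith

lemma q_mono (j : ℕ) : q j ≤ q (j + 1) := by
  rw [q_succ]
  have := q_pos j
  nlinarith

lemma q_mono' {i j : ℕ} (h : i ≤ j) : q i ≤ q j := monotone_nat_of_le_succ q_mono h

end Pool.Agent.TH878.FoldCF
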