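import Mathlib
import Pool.Agent.TH878.FoldCF

set_option autoImplicit false

namespace Pool.Agent.TH878.FoldCF

open Filter Topology

lemma qR_pos (j : ℕ) : (0 : ℝ) < q j := by
  have := q_pos j
  exact_mod_cast (by linarith : (0 : ℤ) < q j)

lemma q_growth (j : ℕ) : ∀ i : ℕ, (q (j + 1) : ℝ) * 2 ^ i ≤ q (i + (j + 1))
  | 0 => by simp
  | i + 1 => by
    have h := q_growth j i
    have e : i + 1 + (j + 1) = (i + (j + 1)) + 1 := by ring
    rw [e, q_succ (i + (j + 1))]
    have h5 : (5 : ℝ) ≤ q (i + (j + 1)) := by exact_mod_cast q_pos (i + (j + 1))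
    push_cast
    rw [pow_succ]
    nlinarith

lemma inv_le (j i : ℕ) : (1 : ℝ) / q (i + (j + 1)) ≤ (1 / q (j + 1)) * (1 / 2) ^ i := by
  have h := q_growth j i
  have h1 := qR_pos (j + 1)
  rw [one_div_pow, one_div_mul_one_div]
  exact one_div_le_one_div_of_le (by positivity) h

lemma summable_inv : Summable fun j : ℕ => (1 : ℝ) / q (j + 1) := by
  refine Summable.of_nonneg_of_le (fun j => (one_div_pos.mpr (qR_pos _)).le)
    (fun j => inv_le 0 j) ?_
  exact (summable_geometric_of_lt_one (by norm_num) (by norm_num)).mul_left _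

/-- the badly approximable number -/
noncomputable def alpha : ℝ := (p 0 : ℝ) / q 0 + ∑' j : ℕ, (1 : ℝ) / q (j + 1)

lemma conv_eq : ∀ j : ℕ, (p 0 : ℝ) / q 0 + ∑ i ∈ Finset.range j, (1 : ℝ) / q (i + 1) =
    (p j : ℝ) / q j
  | 0 => by simp
  | j + 1 => by
    rw [Finset.sum_range_succ, ← add_assoc, conv_eq j, p_succ, q_succ]
    have := (qR_pos j).ne'
    push_cast
    field_simp

lemma alpha_bounds (j : ℕ) : 0 < alpha - (p j : ℝ) / q j ∧
    alpha - (p j : ℝ) / q j ≤ 2 / q (j + 1) := by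
  have h1 := summable_inv.sum_add_tsum_nat_add j
  have h2 : alpha - (p j : ℝ) / q j = ∑' i : ℕ, (1 : ℝ) / q (i + j + 1) := by
    rw [← conv_eq, alpha, ← h1]
    ring
  have hs : Summable fun i : ℕ => (1 : ℝ) / q (i + j + 1) :=
    (summable_nat_add_iff (f := fun j : ℕ => (1 : ℝ) / q (j + 1)) j).mpr summable_inv
  rw [h2]
  constructor
  · exact hs.tsum_pos (fun i => (one_div_pos.mpr (qR_pos _)).le) 0 (one_div_pos.mpr (qR_pos _))
  · have hg : Summable fun i : ℕ => (1 : ℝ) / q (j + 1) * (1 / 2) ^ i :=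
      (summable_geometric_of_lt_one (by norm_num) (by norm_num)).mul_left _
    have h3 := hs.tsum_le_tsum (fun i => inv_le j i) hg
    rw [tsum_mul_left, tsum_geometric_of_lt_one (by norm_num) (by norm_num)] at h3
    refine h3.trans (le_of_eq ?_)
    ring

lemma conv_tendsto : Tendsto (fun j : ℕ => (p j : ℝ) / q j) atTop (𝓝 alpha) := by
  have h1 := (summable_inv.hasSum.tendsto_sum_nat).const_add ((p 0 : ℝ) / q 0)
  refine h1.congr (fun j => ?_)
  exact conv_eq j

/-- `alpha` is badly approximable -/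
lemma badly (a b : ℤ) (hb : 1 ≤ b) : 1 / (5 * (b : ℝ) ^ 2) ≤ |alpha - (a : ℝ) / b| := by
  have hbR : (0 : ℝ) < b := by exact_mod_cast (by linarith : (0 : ℤ) < b)
  have h1 : Tendsto (fun j : ℕ => |(p j : ℝ) / q j - (a : ℝ) / b|) atTop
      (𝓝 |alpha - (a : ℝ) / b|) := (conv_tendsto.sub_const _).abs
  refine ge_of_tendsto h1 ?_
  filter_upwards [eventually_ge_atTop b.toNat] with j hj
  have hlt : b < q j := by
    have := q_lt j
    omega
  have h := best' (w j) (w_mem j) a b hb hlt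
  have hR : (q j : ℝ) ≤ 5 * b * |(b : ℝ) * p j - a * q j| := by exact_mod_cast h
  have hq := qR_pos j
  have e : (p j : ℝ) / q j - (a : ℝ) / b = ((b : ℝ) * p j - a * q j) / (q j * b) := by
    field_simp
  rw [e, abs_div, abs_of_pos (mul_pos hq hbR), div_le_div_iff₀ (by positivity) (by positivity)]
  nlinarith

lemma irrational_alpha : Irrational alpha := by
  rintro ⟨r, hr⟩
  have h := badly r.num r.den (by exact_mod_cast r.pos)
  rw [← hr] at h
  have h2 : (r : ℝ) - (r.num : ℝ) / ((r.den : ℤ) : ℝ) = 0 := by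
    rw [sub_eq_zero]
    push_cast
    exact_mod_cast (Rat.num_div_den r).symm
  rw [h2, abs_zero] at h
  have hd : (0 : ℝ) < ((r.den : ℤ) : ℝ) := by exact_mod_cast r.pos
  have : (0 : ℝ) < 1 / (5 * ((r.den : ℤ) : ℝ) ^ 2) := by positivity
  linarith

/-- `v_j`, with `q_{j+1} = v_j ^ 2` -/
def v (j : ℕ) : ℕ := 2 * (q j).toNat

lemma v_cast (j : ℕ) : ((v j : ℕ) : ℤ) = 2 * q j := by
  unfold v
  have := q_pos j
  push_cast
  rw [Int.toNat_of_nonneg (by linarith)]

lemma q_succ_eq (j : ℕ) : q (j + 1) = (v j : ℤ) ^ 2 := by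
  rw [q_succ, v_cast]; ring

lemma v_pos (j : ℕ) : 1 ≤ v j := by
  have h := v_cast j
  have := q_pos j
  omega

lemma lt_v (j : ℕ) : j < v j := by
  have h := v_cast j
  have h1 := q_lt j
  have := q_pos j
  omega

end Pool.Agent.TH878.FoldCF
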